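import Pool.Agent.K1H53.BI.Plan5
import Pool.Agent.K1H39.BI.Gen

set_option autoImplicit false

/-! Project BI, part 3: the piece `S_U1`. -/

namespace Pool.Agent.K1H78.BI5

open Finset Pool.Agent.K1H53.BI

/-- the vector in the Euclidean space -/
noncomputable def toE (a : V) : EuclideanSpace ℝ (Fin 3) := WithLp.toLp 2 (fun i => (a i : ℝ))

theorem nrm_eq (a : V) : nrm a = ‖toE a‖ := by
  rw [EuclideanSpace.norm_eq]
  unfold nrm nsq
  congr 1
  push_cast
  apply Finset.sum_congr rfl
  intro i _
  simp only [toE, Real.norm_eq_abs, sq_abs]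
  rw [Nat.cast_natAbs, Int.cast_abs, sq_abs]

theorem toE_add (a b : V) : toE (a + b) = toE a + toE b := by
  ext i
  simp [toE]

theorem nrm_add_le (a b : V) : nrm (a + b) ≤ nrm a + nrm b := by
  rw [nrm_eq, nrm_eq, nrm_eq, toE_add]
  exact norm_add_le _ _

theorem nrm_nonneg (a : V) : 0 ≤ nrm a := Real.sqrt_nonneg _

theorem nrm_sq (a : V) : nrm a ^ 2 = nsq a := Real.sq_sqrt (Nat.cast_nonneg _)

theorem nsq_dir (e : Fin 3 × Bool) : nsq (dir e) = 1 := by
  revert e
  decide

theorem nrm_dir (e : Fin 3 × Bool) : nrm (dir e) = 1 := by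
  unfold nrm
  rw [nsq_dir]
  simp

theorem nrm_neg (a : V) : nrm (-a) = nrm a := by
  rw [nrm_eq, nrm_eq]
  have : toE (-a) = - toE a := by
    ext i
    simp [toE]
  rw [this, norm_neg]

theorem t_U1 : S_U1 := by
  intro hM hQ hG
  obtain ⟨C, hC, hGU⟩ := hG
  obtain ⟨-, -, hlam, -, -⟩ := hQ
  refine ⟨64 * C, 100, by positivity, ?_⟩
  intro R G z x hR hIs hz hz4 hx
  have hR' : (100 : ℝ) ≤ R := by exact_mod_cast hR
  have hR0 : (0 : ℝ) < R := by linarith
  set K : ℝ := 16 * C with hK
  set σ : ℝ := Real.sqrt (((R : ℝ) + 1) ^ 2 + 20) with hσ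
  have hσ1 : (R : ℝ) + 1 ≤ σ := by
    rw [hσ]
    apply Real.le_sqrt_of_sq_le
    linarith
  have hσ2 : σ ^ 2 = ((R : ℝ) + 1) ^ 2 + 20 := Real.sq_sqrt (by positivity)
  have hσ0 : 0 < σ := by linarith
  set Λ : Finset V := (BR R).filter fun y => 9 * R ^ 2 < 64 * nsq y with hΛ
  have hmem : ∀ y, y ∈ Λ ↔ nsq y ≤ R ^ 2 ∧ 9 * R ^ 2 < 64 * nsq y := by
    intro y
    rw [hΛ, Finset.mem_filter, mem_BR]
  set h : V → ℝ := fun y => K * (qf y - 1 / σ) - G y x with hh
  have hxR : nsq x ≤ R ^ 2 := by omega
  have hzΛ : z ∈ Λ := by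
    rw [hmem]
    refine ⟨hz, ?_⟩
    have : 0 < R ^ 2 := by positivity
    omega
  have hxr : nrm x ≤ R / 4 := by
    have h1 : (16 : ℝ) * nsq x ≤ (R : ℝ) ^ 2 := by exact_mod_cast hx
    rw [← nrm_sq] at h1
    have := nrm_nonneg x
    nlinarith
  have hpos : 0 ≤ h z := by
    refine hM Λ h ?_ ?_ z hzΛ
    · intro y hy
      rw [hmem] at hy
      have h1 := hIs.eq y x hy.1 hxR
      have hne : y ≠ x := by
        rintro rfl
        omega
      rw [if_neg hne, sub_zero] at h1
      have h2 : av h y = K * (av qf y - 1 / σ) - av (fun y' => G y' x) y := by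
        unfold av
        rw [hh]
        simp only [Finset.sum_sub_distrib, ← Finset.mul_sum, Finset.sum_const, Finset.card_univ,
          Fintype.card_prod, Fintype.card_fin, Fintype.card_bool, nsmul_eq_mul]
        push_cast
        ring
      rw [h2, h1, hh]
      have h3 : av qf y ≤ qf y := by
        have := hlam y
        unfold lam at this
        linarith
      have hK0 : 0 < K := by positivity
      have := mul_le_mul_of_nonneg_left h3 hK0.le
      simp only
      linarith
    · intro y hy e he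
      rw [hmem] at hy he
      set y' := y + dir e with hy'
      rcases lt_or_ge (R ^ 2) (nsq y') with h1 | h1
      · rw [hh]
        simp only
        rw [hIs.out y' x h1, sub_zero]
        have h2 : nsq y' ≤ (R + 1) ^ 2 := Pool.Agent.K1H39.BI.nsq_dir_le hy.1 e
        have h3 : (nsq y' : ℝ) ≤ ((R : ℝ) + 1) ^ 2 := by exact_mod_cast h2
        have h4 : 1 / σ ≤ qf y' := by
          unfold qf
          apply one_div_le_one_div_of_le
          · positivity
          · apply Real.sqrt_le_sqrt
            linarith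
        have hK0 : 0 < K := by positivity
        exact mul_nonneg hK0.le (sub_nonneg.2 h4)
      · have h2 : 64 * nsq y' ≤ 9 * R ^ 2 := by
          by_contra hc
          exact he ⟨h1, not_le.1 hc⟩
        -- the distance to `x`
        have h3 : nrm y ≤ nrm (y' - x) + nrm x + 1 := by
          have e1 : y = (y' - x) + (x + - dir e) := by
            rw [hy']
            abel
          calc nrm y = nrm ((y' - x) + (x + - dir e)) := by rw [← e1]
            _ ≤ nrm (y' - x) + nrm (x + - dir e) := nrm_add_le _ _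
            _ ≤ nrm (y' - x) + (nrm x + nrm (- dir e)) := by
              gcongr
              exact nrm_add_le _ _
            _ = nrm (y' - x) + nrm x + 1 := by rw [nrm_neg, nrm_dir]; ring
        have h4 : 3 * R / 8 < nrm y := by
          have h5 : (9 : ℝ) * R ^ 2 < 64 * nsq y := by exact_mod_cast hy.2
          rw [← nrm_sq] at h5
          have := nrm_nonneg y
          by_contra hc
          push Not at hc
          nlinarith
        have h5 : R / 16 ≤ nrm (y' - x) := by linarith
        have h6 : G y' x ≤ 16 * C / R := by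
          refine (hGU R G hIs y' x).trans ?_
          rw [div_le_div_iff₀ (by positivity) hR0]
          have h7 : nrm (y' - x) ≤ Real.sqrt (nsq (y' - x) + 1) := by
            unfold nrm
            apply Real.sqrt_le_sqrt
            linarith
          have h8 : (R : ℝ) / 16 ≤ Real.sqrt (nsq (y' - x) + 1) := h5.trans h7
          nlinarith
        have h9 : 2 / R ≤ qf y' := by
          unfold qf
          have h10 : Real.sqrt (nsq y' + 20) ≤ R / 2 := by
            rw [Real.sqrt_le_left (by positivity)]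
            have h11 : (64 : ℝ) * nsq y' ≤ 9 * R ^ 2 := by exact_mod_cast h2
            nlinarith
          have h12 : 0 < Real.sqrt ((nsq y' : ℝ) + 20) := by positivity
          rw [div_le_div_iff₀ hR0 h12]
          linarith
        have h13 : 1 / σ ≤ 1 / R := by
          apply one_div_le_one_div_of_le hR0
          linarith
        rw [hh]
        simp only
        have hK0 : 0 < K := by positivity
        have h14 : K * (2 / R - 1 / R) ≤ K * (qf y' - 1 / σ) := by
          apply mul_le_mul_of_nonneg_left _ hK0.le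
          linarith
        have h15 : K * (2 / R - 1 / R) = 16 * C / R := by
          rw [hK]
          ring
        linarith
  rw [hh] at hpos
  simp only at hpos
  have hGz : G z x ≤ K * (qf z - 1 / σ) := by linarith
  refine hGz.trans ?_
  have hzr : R / 2 ≤ nrm z := by
    have h1 : (R : ℝ) ^ 2 ≤ 4 * nsq z := by exact_mod_cast hz4
    rw [← nrm_sq] at h1
    have := nrm_nonneg z
    by_contra hc
    push Not at hc
    nlinarith
  have hzR : nrm z ≤ R := by
    have h1 : (nsq z : ℝ) ≤ (R : ℝ) ^ 2 := by exact_mod_cast hz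
    rw [← nrm_sq] at h1
    exact (le_abs_self _).trans (abs_le_of_sq_le_sq h1 hR0.le)
  unfold qf
  set s : ℝ := Real.sqrt (nsq z + 20) with hs
  have hs2 : s ^ 2 = nsq z + 20 := Real.sq_sqrt (by positivity)
  have hs1 : R / 2 ≤ s := by
    refine hzr.trans ?_
    rw [hs]
    unfold nrm
    apply Real.sqrt_le_sqrt
    linarith
  have hs0 : 0 < s := by linarith
  have h1 : 1 / s - 1 / σ = ((R : ℝ) + 1 - nrm z) * (R + 1 + nrm z) / (s * σ * (s + σ)) := by
    have h2 : ((R : ℝ) + 1 - nrm z) * (R + 1 + nrm z) = σ ^ 2 - s ^ 2 := by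
      rw [hσ2, hs2, ← nrm_sq z]
      ring
    rw [h2]
    field_simp
    ring
  have h3 : (R : ℝ) ^ 3 * (3 / 4) ≤ s * σ * (s + σ) := by
    have e1 : (R : ℝ) / 2 * R ≤ s * σ := by
      apply mul_le_mul hs1 (by linarith) hR0.le hs0.le
    have e2 : (R : ℝ) * (3 / 2) ≤ s + σ := by linarith
    calc (R : ℝ) ^ 3 * (3 / 4) = ((R : ℝ) / 2 * R) * ((R : ℝ) * (3 / 2)) := by ring
      _ ≤ (s * σ) * (s + σ) := by
        apply mul_le_mul e1 e2 (by positivity) (by positivity)
  have h4 : 0 ≤ (R : ℝ) + 1 - nrm z := by linarith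
  have h5 : 1 / s - 1 / σ ≤ ((R : ℝ) + 1 - nrm z) * (3 * R) / ((R : ℝ) ^ 3 * (3 / 4)) := by
    rw [h1]
    apply div_le_div₀
    · positivity
    · apply mul_le_mul_of_nonneg_left _ h4
      linarith
    · positivity
    · exact h3
  calc K * (1 / s - 1 / σ) ≤ K * (((R : ℝ) + 1 - nrm z) * (3 * R) / ((R : ℝ) ^ 3 * (3 / 4))) := by
        apply mul_le_mul_of_nonneg_left h5 (by positivity)
    _ = 64 * C * ((R : ℝ) + 1 - nrm z) / (R : ℝ) ^ 2 := by
        rw [hK]
        field_simp
        ring

end Pool.Agent.K1H78.BI5
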